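import Mathlib
import Pool.Agent.Q80.Bessel

/-!
# Minima of the Turán ratio for Bessel functions
-/

open Filter Topology Set
open Q80.Bes

namespace Pool.Agent.Results.MP_f30c32_an.TuranMinima

noncomputable section

/-- `Δ_ν = J_ν² - J_{ν-1} J_{ν+1}` -/
def Delta (ν x : ℝ) : ℝ := J ν x ^ 2 - J (ν - 1) x * J (ν + 1) x

/-- `Φ_ν = Δ_ν / J_ν²` -/
def Phi (ν x : ℝ) : ℝ := Delta ν x / J ν x ^ 2

/-- `j` enumerates the positive zeros of `J_ν`, in increasing order, `j 0 = 0`. -/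
def IsEnum (ν : ℝ) (j : ℕ → ℝ) : Prop :=
  j 0 = 0 ∧ StrictMono j ∧ ∀ x : ℝ, 0 < x → (J ν x = 0 ↔ ∃ n : ℕ, 1 ≤ n ∧ x = j n)

variable {ν : ℝ}

lemma Delta_eq (hν : 0 < ν) {x : ℝ} (hx : 0 < x) :
    Delta ν x = J ν x ^ 2 - 2 * ν / x * (J ν x * J (ν + 1) x) + J (ν + 1) x ^ 2 := by
  unfold Delta
  rw [J_rec hν hx]; ring

/-! ### Positivity of `Δ_ν` -/

/-- `W = x² Δ_ν` -/
def W (ν x : ℝ) : ℝ := x ^ 2 * J ν x ^ 2 - 2 * ν * x * (J ν x * J (ν + 1) x) + x ^ 2 * J (ν + 1) x ^ 2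

lemma W_hasDerivAt (hν : 0 < ν) {x : ℝ} (hx : 0 < x) : HasDerivAt (W ν) (2 * x * J ν x ^ 2) x := by
  have hJ := J_hasDerivAt (by linarith : -1 < ν) hx
  have hK := J_succ_hasDerivAt (by linarith : -1 < ν) hx
  have h1 := ((hasDerivAt_pow 2 x).mul (hJ.pow 2))
  have h2 := (((hasDerivAt_id x).const_mul (2 * ν)).mul (hJ.mul hK))
  have h3 := ((hasDerivAt_pow 2 x).mul (hK.pow 2))
  refine (((h1.sub h2).add h3).congr_of_eventuallyEq (Eventually.of_forall fun y => ?_)).congr_deriv ?_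
  · simp [W]
  · simp only [Pi.pow_apply, Pi.mul_apply, id]
    push_cast
    field_simp
    ring

lemma J_tendsto_zero (hν : 0 < ν) : Tendsto (J ν) (𝓝[>] 0) (𝓝 0) := by
  have h1 : Tendsto (fun x : ℝ => (x / 2) ^ ν) (𝓝[>] 0) (𝓝 0) := by
    have h2 : ContinuousAt (fun x : ℝ => (x / 2) ^ ν) 0 := by
      apply ContinuousAt.rpow_const
      · exact continuousAt_id.div_const 2
      · right; exact hν.le
    have h3 := h2.tendsto
    simp only [zero_div] at h3
    rw [Real.zero_rpow hν.ne'] at h3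
    exact h3.mono_left nhdsWithin_le_nhds
  have h2 : Tendsto (fun x : ℝ => g ν (x ^ 2 / 4)) (𝓝[>] 0) (𝓝 (g ν 0)) := by
    have h3 : ContinuousAt (g ν) 0 := (g_hasDerivAt (by linarith : -1 < ν) 0).continuousAt
    have h4 : Tendsto (fun x : ℝ => x ^ 2 / 4) (𝓝[>] 0) (𝓝 0) := by
      have : ContinuousAt (fun x : ℝ => x ^ 2 / 4) 0 := by fun_prop
      have := this.tendsto
      simp only [ne_eq, OfNat.ofNat_ne_zero, not_false_eq_true, zero_pow, zero_div] at this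
      exact this.mono_left nhdsWithin_le_nhds
    exact h3.tendsto.comp h4
  have h3 := h1.mul h2
  rw [zero_mul] at h3
  refine h3.congr' ?_
  filter_upwards [self_mem_nhdsWithin] with x hx
  exact (J_eq hx).symm

lemma W_tendsto_zero (hν : 0 < ν) : Tendsto (W ν) (𝓝[>] 0) (𝓝 0) := by
  have hJ := J_tendsto_zero hν
  have hK := J_tendsto_zero (by linarith : 0 < ν + 1)
  have hx : Tendsto (fun x : ℝ => x) (𝓝[>] 0) (𝓝 0) := tendsto_id.mono_left nhdsWithin_le_nhds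
  have h := (((hx.pow 2).mul (hJ.pow 2)).sub ((hx.const_mul (2 * ν)).mul (hJ.mul hK))).add
    ((hx.pow 2).mul (hK.pow 2))
  have e : W ν = fun x : ℝ => x ^ 2 * J ν x ^ 2 - 2 * ν * x * (J ν x * J (ν + 1) x) +
    x ^ 2 * J (ν + 1) x ^ 2 := rfl
  rw [e]
  simpa using h

lemma W_mono (hν : 0 < ν) : MonotoneOn (W ν) (Ioi 0) := by
  apply monotoneOn_of_deriv_nonneg (convex_Ioi 0)
  · intro x hx
    exact (W_hasDerivAt hν hx).continuousAt.continuousWithinAt
  · intro x hx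
    rw [interior_Ioi] at hx
    exact (W_hasDerivAt hν hx).differentiableAt.differentiableWithinAt
  · intro x hx
    rw [interior_Ioi] at hx
    have hx' : (0 : ℝ) < x := hx
    rw [(W_hasDerivAt hν hx').deriv]
    positivity

lemma W_nonneg (hν : 0 < ν) {x : ℝ} (hx : 0 < x) : 0 ≤ W ν x := by
  apply le_of_tendsto (W_tendsto_zero hν)
  filter_upwards [Ioo_mem_nhdsGT hx] with y hy
  exact W_mono hν hy.1 hx hy.2.le

lemma W_pos (hν : 0 < ν) {x : ℝ} (hx : 0 < x) : 0 < W ν x := by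
  set y : ℝ := min x 1 with hy
  have hy0 : 0 < y := lt_min hx one_pos
  have hy1 : y ≤ 1 := min_le_right _ _
  have h1 : W ν y ≤ W ν x := W_mono hν hy0 hx (min_le_left _ _)
  have h2 : W ν (y / 2) < W ν y := by
    have hs : StrictMonoOn (W ν) (Icc (y / 2) y) := by
      apply strictMonoOn_of_deriv_pos (convex_Icc _ _)
      · intro z hz
        exact (W_hasDerivAt hν (by linarith [hz.1])).continuousAt.continuousWithinAt
      · intro z hz
        rw [interior_Icc] at hz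
        have hz0 : 0 < z := by linarith [hz.1]
        rw [(W_hasDerivAt hν hz0).deriv]
        have := J_pos hν.le hz0 (by linarith [hz.2])
        positivity
    exact hs ⟨le_refl _, by linarith⟩ ⟨by linarith, le_refl _⟩ (by linarith)
  have h3 := W_nonneg hν (by linarith : 0 < y / 2)
  linarith

lemma Delta_pos (hν : 0 < ν) {x : ℝ} (hx : 0 < x) : 0 < Delta ν x := by
  have h := W_pos hν hx
  have e : W ν x = x ^ 2 * Delta ν x := by
    rw [Delta_eq hν hx, W]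
    field_simp
  rw [e] at h
  exact (mul_pos_iff_of_pos_left (by positivity)).1 h

/-! ### The logarithmic derivative -/

/-- `L = J_ν'/J_ν = ν/x - J_{ν+1}/J_ν` -/
def L (ν x : ℝ) : ℝ := ν / x - J (ν + 1) x / J ν x

lemma L_hasDerivAt (hν : 0 < ν) {x : ℝ} (hx : 0 < x) (hJ0 : J ν x ≠ 0) :
    HasDerivAt (L ν) (-L ν x / x - 1 + ν ^ 2 / x ^ 2 - L ν x ^ 2) x := by
  have hJ := J_hasDerivAt (by linarith : -1 < ν) hx
  have hK := J_succ_hasDerivAt (by linarith : -1 < ν) hx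
  have h1 : HasDerivAt (fun y : ℝ => ν / y) (-ν / x ^ 2) x := by
    have := (hasDerivAt_inv hx.ne').const_mul ν
    refine (this.congr_of_eventuallyEq (Eventually.of_forall fun y => ?_)).congr_deriv ?_
    · simp [div_eq_mul_inv]
    · field_simp
  refine (h1.sub (hK.div hJ hJ0)).congr_deriv ?_
  unfold L
  field_simp
  ring

lemma Phi_eq (hν : 0 < ν) {x : ℝ} (hx : 0 < x) (hJ0 : J ν x ≠ 0) :
    Phi ν x = 1 - ν ^ 2 / x ^ 2 + L ν x ^ 2 := by
  unfold Phi L
  rw [Delta_eq hν hx]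
  field_simp
  ring

lemma Phi_pos (hν : 0 < ν) {x : ℝ} (hx : 0 < x) (hJ0 : J ν x ≠ 0) : 0 < Phi ν x :=
  div_pos (Delta_pos hν hx) (by positivity)

/-- `Φ' = (2/x)(1 - Φ) - 2 L Φ` -/
def D1 (ν x : ℝ) : ℝ := 2 / x * (1 - Phi ν x) - 2 * L ν x * Phi ν x

lemma J_continuousAt (hν : 0 < ν) {x : ℝ} (hx : 0 < x) : ContinuousAt (J ν) x :=
  (J_hasDerivAt (by linarith) hx).continuousAt

lemma ev_ne (hν : 0 < ν) {x : ℝ} (hx : 0 < x) (hJ0 : J ν x ≠ 0) : ∀ᶠ y in 𝓝 x, 0 < y ∧ J ν y ≠ 0 :=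
  (lt_mem_nhds hx).and ((J_continuousAt hν hx).eventually_ne hJ0)

lemma Phi_hasDerivAt (hν : 0 < ν) {x : ℝ} (hx : 0 < x) (hJ0 : J ν x ≠ 0) :
    HasDerivAt (Phi ν) (D1 ν x) x := by
  have hL := L_hasDerivAt hν hx hJ0
  have h1 : HasDerivAt (fun y : ℝ => 1 - ν ^ 2 / y ^ 2) (2 * ν ^ 2 / x ^ 3) x := by
    have h2 := ((hasDerivAt_pow 2 x).inv (by positivity)).const_mul (ν ^ 2)
    have h3 := h2.const_sub 1
    refine (h3.congr_of_eventuallyEq (Eventually.of_forall fun y => ?_)).congr_deriv ?_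
    · simp [div_eq_mul_inv]
    · push_cast; field_simp
  have h2 := h1.add (hL.pow 2)
  have heq : Phi ν =ᶠ[𝓝 x] fun y => (1 - ν ^ 2 / y ^ 2) + L ν y ^ 2 := by
    filter_upwards [ev_ne hν hx hJ0] with y hy
    exact Phi_eq hν hy.1 hy.2
  refine (h2.congr_of_eventuallyEq heq).congr_deriv ?_
  rw [D1, Phi_eq hν hx hJ0]
  push_cast
  field_simp
  ring

lemma D1_hasDerivAt (hν : 0 < ν) {x : ℝ} (hx : 0 < x) (hJ0 : J ν x ≠ 0) :
    HasDerivAt (D1 ν) (2 * Phi ν x ^ 2 - (3 / x + 2 * L ν x) * D1 ν x) x := by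
  have hL := L_hasDerivAt hν hx hJ0
  have hP := Phi_hasDerivAt hν hx hJ0
  have h1 : HasDerivAt (fun y : ℝ => 2 / y) (-2 / x ^ 2) x := by
    have := (hasDerivAt_inv hx.ne').const_mul 2
    refine (this.congr_of_eventuallyEq (Eventually.of_forall fun y => ?_)).congr_deriv ?_
    · simp [div_eq_mul_inv]
    · field_simp
  have h2 := (h1.mul (hP.const_sub 1)).sub ((hL.const_mul 2).mul hP)
  refine h2.congr_deriv ?_
  rw [D1, Phi_eq hν hx hJ0]
  field_simp
  ring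

/-! ### Critical points -/

/-- A continuous function whose derivative is positive at each of its zeros has at most one zero. -/
lemma unique_zero {F : ℝ → ℝ} {a b : ℝ} (hF : ContinuousOn F (Ioo a b))
    (h : ∀ x ∈ Ioo a b, F x = 0 → ∃ F' : ℝ, 0 < F' ∧ HasDerivAt F F' x) {c d : ℝ}
    (hc : c ∈ Ioo a b) (hd : d ∈ Ioo a b) (hc0 : F c = 0) (hd0 : F d = 0) : ¬ c < d := by
  intro hcd
  have hsub : Icc c d ⊆ Ioo a b := fun x hx => ⟨lt_of_lt_of_le hc.1 hx.1, lt_of_le_of_lt hx.2 hd.2⟩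
  -- right of a zero the function is positive
  have hright : ∀ x ∈ Ioo a b, F x = 0 → ∀ᶠ y in 𝓝[>] x, 0 < F y := by
    intro x hx hx0
    obtain ⟨F', hF', hder⟩ := h x hx hx0
    have h1 := hasDerivAt_iff_tendsto_slope.1 hder
    have h2 : ∀ᶠ y in 𝓝[≠] x, 0 < slope F x y := h1.eventually_const_lt hF'
    have h3 : ∀ᶠ y in 𝓝[>] x, 0 < slope F x y := h2.filter_mono (nhdsWithin_mono x fun y hy => ne_of_gt hy)
    filter_upwards [h3, self_mem_nhdsWithin] with y hy hy2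
    rw [slope_def_field, hx0, sub_zero] at hy
    exact (div_pos_iff_of_pos_right (sub_pos.2 hy2)).1 hy
  have hleft : ∀ x ∈ Ioo a b, F x = 0 → ∀ᶠ y in 𝓝[<] x, F y < 0 := by
    intro x hx hx0
    obtain ⟨F', hF', hder⟩ := h x hx hx0
    have h1 := hasDerivAt_iff_tendsto_slope.1 hder
    have h2 : ∀ᶠ y in 𝓝[≠] x, 0 < slope F x y := h1.eventually_const_lt hF'
    have h3 : ∀ᶠ y in 𝓝[<] x, 0 < slope F x y := h2.filter_mono (nhdsWithin_mono x fun y hy => ne_of_lt hy)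
    filter_upwards [h3, self_mem_nhdsWithin] with y hy hy2
    rw [slope_def_field, hx0, sub_zero] at hy
    have h4 : y - x < 0 := sub_neg.2 hy2
    by_contra hcon
    push Not at hcon
    have := div_nonpos_of_nonneg_of_nonpos hcon h4.le
    linarith
  -- a first point to the right of `c` with a positive value
  obtain ⟨c', hc'1, hc'2⟩ := ((hright c hc hc0).and (Ioo_mem_nhdsGT hcd)).exists
  -- the first zero after `c'`
  set S : Set ℝ := {x ∈ Icc c' d | F x = 0} with hS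
  have hdS : d ∈ S := ⟨⟨hc'2.2.le, le_refl _⟩, hd0⟩
  have hbdd : BddBelow S := ⟨c', fun x hx => hx.1.1⟩
  have hFc : ContinuousOn F (Icc c' d) := hF.mono ((Icc_subset_Icc_left hc'2.1.le).trans hsub)
  have hSc : IsClosed S := by
    have : S = Icc c' d ∩ F ⁻¹' {0} := by ext x; simp [hS]
    rw [this]
    exact hFc.preimage_isClosed_of_isClosed isClosed_Icc isClosed_singleton
  set e := sInf S with he
  have heS : e ∈ S := hSc.csInf_mem ⟨d, hdS⟩ hbdd
  have hec' : c' < e := by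
    rcases heS.1.1.eq_or_lt with h1 | h1
    · exfalso
      have := heS.2
      rw [← h1] at this
      linarith
    · exact h1
  have hed : e ≤ d := heS.1.2
  have heab : e ∈ Ioo a b := hsub ⟨by linarith [hc'2.1], hed⟩
  obtain ⟨y, hy1, hy2⟩ := ((hleft e heab heS.2).and (Ioo_mem_nhdsLT hec')).exists
  -- intermediate value theorem on `[c', y]`
  have hivt : (0 : ℝ) ∈ F '' Icc c' y := by
    apply intermediate_value_Icc' hy2.1.le
    · exact hFc.mono (Icc_subset_Icc_right (by linarith [hy2.2]))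
    · exact ⟨hy1.le, hc'1.le⟩
  obtain ⟨z, hz, hz0⟩ := hivt
  have hzS : z ∈ S := ⟨⟨hz.1, by linarith [hz.2, hy2.2]⟩, hz0⟩
  have := csInf_le hbdd hzS
  linarith [hz.2, hy2.2]

/-- Between two consecutive zeros of `J_ν` there is exactly one zero of `Φ_ν'`. -/
lemma exists_unique_crit (hν : 0 < ν) {a b : ℝ} (ha : 0 < a) (hab : a < b) (hJa : J ν a = 0)
    (hJb : J ν b = 0) (hne : ∀ x ∈ Ioo a b, J ν x ≠ 0) :
    ∃ c ∈ Ioo a b, ∀ x ∈ Ioo a b, (deriv (Phi ν) x = 0 ↔ x = c) := by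
  have hpos : ∀ x ∈ Ioo a b, 0 < x := fun x hx => ha.trans hx.1
  -- existence, by Rolle's theorem for `1 / Φ = J² / Δ`
  have hcont : ContinuousOn (fun x => J ν x ^ 2 / Delta ν x) (Icc a b) := by
    intro x hx
    have hx0 : 0 < x := by linarith [hx.1]
    apply ContinuousAt.continuousWithinAt
    have hDc : ContinuousAt (Delta ν) x := by
      have e : Delta ν =ᶠ[𝓝 x] fun x => J ν x ^ 2 - 2 * ν / x * (J ν x * J (ν + 1) x) + J (ν + 1) x ^ 2 := by
        filter_upwards [lt_mem_nhds hx0] with y hy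
        exact Delta_eq hν hy
      apply ContinuousAt.congr _ e.symm
      have h1 := J_continuousAt hν hx0
      have h2 := J_continuousAt (by linarith : 0 < ν + 1) hx0
      have h3 : ContinuousAt (fun y : ℝ => 2 * ν / y) x := continuousAt_const.div continuousAt_id hx0.ne'
      exact ((h1.pow 2).sub (h3.mul (h1.mul h2))).add (h2.pow 2)
    exact ((J_continuousAt hν hx0).pow 2).div hDc (Delta_pos hν hx0).ne'
  obtain ⟨c, hc, hc0⟩ := exists_deriv_eq_zero hab hcont (by simp [hJa, hJb])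
  have hcrit : D1 ν c = 0 := by
    have hx0 := hpos c hc
    have hP := Phi_hasDerivAt hν hx0 (hne c hc)
    have hPp := Phi_pos hν hx0 (hne c hc)
    have h1 := hP.inv hPp.ne'
    have e : (fun x => J ν x ^ 2 / Delta ν x) =ᶠ[𝓝 c] (Phi ν)⁻¹ := by
      filter_upwards with y
      rw [Pi.inv_apply, Phi, inv_div]
    rw [e.deriv_eq, h1.deriv] at hc0
    rw [div_eq_zero_iff] at hc0
    rcases hc0 with h2 | h2
    · linarith
    · exact absurd h2 (by positivity)
  -- uniqueness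
  have hD1c : ContinuousOn (D1 ν) (Ioo a b) := fun x hx =>
    (D1_hasDerivAt hν (hpos x hx) (hne x hx)).continuousAt.continuousWithinAt
  have hD1z : ∀ x ∈ Ioo a b, D1 ν x = 0 → ∃ F' : ℝ, 0 < F' ∧ HasDerivAt (D1 ν) F' x := by
    intro x hx h0
    have h1 := D1_hasDerivAt hν (hpos x hx) (hne x hx)
    rw [h0, mul_zero, sub_zero] at h1
    have := Phi_pos hν (hpos x hx) (hne x hx)
    exact ⟨_, by positivity, h1⟩
  refine ⟨c, hc, fun x hx => ?_⟩
  rw [(Phi_hasDerivAt hν (hpos x hx) (hne x hx)).deriv]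
  constructor
  · intro h0
    rcases lt_trichotomy x c with h | h | h
    · exact absurd h (unique_zero hD1c hD1z hx hc h0 hcrit)
    · exact h
    · exact absurd h (unique_zero hD1c hD1z hc hx hcrit h0)
  · rintro rfl; exact hcrit

/-- At a critical point `c ≥ 1/2`, the critical value `β` satisfies `0 < β < 1` and
`c² = ν²/(1-β) - (1-β)/β²`. -/
lemma crit_value (hν : 0 < ν) {c : ℝ} (hc : 1 / 2 ≤ c) (hJ0 : J ν c ≠ 0)
    (hcrit : deriv (Phi ν) c = 0) :
    0 < Phi ν c ∧ Phi ν c < 1 ∧ c ^ 2 = ν ^ 2 / (1 - Phi ν c) - (1 - Phi ν c) / Phi ν c ^ 2 := by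
  have hc0 : 0 < c := by linarith
  rw [(Phi_hasDerivAt hν hc0 hJ0).deriv, D1] at hcrit
  have hPp := Phi_pos hν hc0 hJ0
  have hPe := Phi_eq hν hc0 hJ0
  set β := Phi ν c with hβ
  set l := L ν c
  have h1 : 1 - β = c * l * β := by
    field_simp at hcrit
    linarith
  have h2 : c ^ 2 * l ^ 2 = c ^ 2 * (β - 1) + ν ^ 2 := by
    rw [hPe]; field_simp; ring
  have h3 : (1 - β) ^ 2 = c ^ 2 * (β - 1) * β ^ 2 + ν ^ 2 * β ^ 2 := by
    rw [h1]
    calc (c * l * β) ^ 2 = (c ^ 2 * l ^ 2) * β ^ 2 := by ring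
      _ = _ := by rw [h2]; ring
  have hlt : β < 1 := by
    by_contra hcon
    push Not at hcon
    rcases hcon.eq_or_lt with h4 | h4
    · rw [← h4] at h3
      norm_num at h3
      exact hν.ne' (by simpa using h3.symm)
    · have h5 : c ^ 2 * β ^ 2 * (β - 1) < (β - 1) ^ 2 := by
        have : 0 < ν ^ 2 * β ^ 2 := by positivity
        nlinarith
      have h6 : c ^ 2 * β ^ 2 < β - 1 := by
        have h7 : 0 < β - 1 := by linarith
        have : (c ^ 2 * β ^ 2) * (β - 1) < (β - 1) * (β - 1) := by linarith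
        exact lt_of_mul_lt_mul_right this h7.le
      have h8 : (1 / 2) ^ 2 ≤ c ^ 2 := by gcongr
      nlinarith [sq_nonneg (β - 2), mul_le_mul_of_nonneg_right h8 (sq_nonneg β)]
  refine ⟨hPp, hlt, ?_⟩
  have h4 : 1 - β ≠ 0 := by linarith
  have h5 : c ^ 2 * ((1 - β) * β ^ 2) = ν ^ 2 * β ^ 2 - (1 - β) ^ 2 := by
    rw [h3]; ring
  field_simp
  linarith

lemma value_lt (hν : 0 < ν) {c d β γ : ℝ} (hc : 0 ≤ c) (hcd : c < d) (hβ0 : 0 < β) (hβ1 : β < 1)
    (hγ0 : 0 < γ) (hγ1 : γ < 1) (h1 : c ^ 2 = ν ^ 2 / (1 - β) - (1 - β) / β ^ 2)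
    (h2 : d ^ 2 = ν ^ 2 / (1 - γ) - (1 - γ) / γ ^ 2) : β < γ := by
  by_contra hcon
  push Not at hcon
  have h3 : c ^ 2 < d ^ 2 := by gcongr
  have h4 : ν ^ 2 / (1 - γ) ≤ ν ^ 2 / (1 - β) := by
    apply div_le_div_of_nonneg_left (by positivity) (by linarith) (by linarith)
  have h5 : (1 - β) / β ^ 2 ≤ (1 - γ) / γ ^ 2 := by
    apply div_le_div₀ (by linarith) (by linarith) (by positivity)
    gcongr
  linarith

/-! ### The positive zeros of `J_ν` form an increasing sequence -/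

/-- the set of positive zeros -/
def Z (ν : ℝ) : Set ℝ := {x | 0 < x ∧ J ν x = 0}

lemma Z_lower (hν : 0 < ν) {x : ℝ} (hx : x ∈ Z ν) : 3 / 2 < x := by
  by_contra hcon
  push Not at hcon
  exact (J_pos hν.le hx.1 hcon).ne' hx.2

lemma Z_finite (hν : 0 < ν) (M : ℝ) : (Z ν ∩ Iic M).Finite := by
  by_contra hinf
  have hinf' : (Z ν ∩ Iic M).Infinite := hinf
  have hsub : Z ν ∩ Iic M ⊆ Icc (3 / 2) M := fun x hx => ⟨(Z_lower hν hx.1).le, hx.2⟩
  obtain ⟨x, hxK, hacc⟩ := hinf'.exists_accPt_of_subset_isCompact isCompact_Icc hsub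
  have hx0 : 0 < x := by linarith [hxK.1]
  have hfreq : ∃ᶠ y in 𝓝[≠] x, J ν y = 0 := by
    have := accPt_iff_frequently_nhdsNE.1 hacc
    exact this.mono fun y hy => hy.1.2
  have hcont := J_continuousAt hν hx0
  have hJx : J ν x = 0 := by
    by_contra hne
    have h1 : ∀ᶠ y in 𝓝[≠] x, J ν y ≠ 0 := (hcont.eventually_ne hne).filter_mono nhdsWithin_le_nhds
    exact hfreq h1
  have hder := J_hasDerivAt (by linarith : -1 < ν) hx0
  have hne : ν / x * J ν x - J (ν + 1) x ≠ 0 := by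
    have hD := Delta_pos hν hx0
    rw [Delta_eq hν hx0, hJx] at hD
    rw [hJx]
    intro h
    have h2 : J (ν + 1) x = 0 := by linarith
    rw [h2] at hD
    simp at hD
  exact hfreq (hder.eventually_ne hne)

lemma Z_unbounded (hν : 0 < ν) (X : ℝ) : ∃ x ∈ Z ν, X < x := by
  by_contra hcon
  push Not at hcon
  set Y : ℝ := max X (ν + 1) + 1 with hY
  have hYX : X < Y := by rw [hY]; linarith [le_max_left X (ν + 1)]
  have hYν : ν + 1 < Y := by rw [hY]; linarith [le_max_right X (ν + 1)]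
  have hpos : ∀ x, Y ≤ x → 0 < x ∧ J ν x ≠ 0 := by
    intro x hx
    have hx0 : 0 < x := by linarith
    refine ⟨hx0, fun h => ?_⟩
    have := hcon x ⟨hx0, h⟩
    linarith
  set N : ℝ → ℝ := fun x => Real.arctan (x * L ν x) + Real.log x with hN
  have hder : ∀ x, Y ≤ x → HasDerivAt N (1 / (1 + (x * L ν x) ^ 2) *
      (1 * L ν x + x * (-L ν x / x - 1 + ν ^ 2 / x ^ 2 - L ν x ^ 2)) + x⁻¹) x := by
    intro x hx
    obtain ⟨hx0, hJ0⟩ := hpos x hx
    have h1 := (hasDerivAt_id x).mul (L_hasDerivAt hν hx0 hJ0)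
    exact h1.arctan.add (Real.hasDerivAt_log hx0.ne')
  have hanti : AntitoneOn N (Ici Y) := by
    apply antitoneOn_of_deriv_nonpos (convex_Ici Y)
    · intro x hx
      exact (hder x hx).continuousAt.continuousWithinAt
    · intro x hx
      rw [interior_Ici] at hx
      exact (hder x (le_of_lt hx)).differentiableAt.differentiableWithinAt
    · intro x hx
      rw [interior_Ici] at hx
      have hx' : Y ≤ x := le_of_lt hx
      obtain ⟨hx0, -⟩ := hpos x hx'
      rw [(hder x hx').deriv]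
      set l := L ν x
      have e : 1 / (1 + (x * l) ^ 2) * (1 * l + x * (-l / x - 1 + ν ^ 2 / x ^ 2 - l ^ 2)) + x⁻¹ =
          (1 + ν ^ 2 - x ^ 2) / (x * (1 + (x * l) ^ 2)) := by
        field_simp
        ring
      rw [e]
      apply div_nonpos_of_nonpos_of_nonneg
      · nlinarith
      · positivity
  have hlog : ∀ x, Y ≤ x → Real.log x ≤ N Y + Real.pi / 2 := by
    intro x hx
    have h1 : N x ≤ N Y := hanti (Set.mem_Ici.2 (le_refl Y)) hx hx
    have h2 := Real.neg_pi_div_two_lt_arctan (x * L ν x)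
    simp only [hN] at h1 ⊢
    linarith
  obtain ⟨x, hx1, hx2⟩ := ((Real.tendsto_log_atTop.eventually_gt_atTop (N Y + Real.pi / 2)).and
    (eventually_ge_atTop Y)).exists
  have := hlog x hx2
  linarith

/-- The positive zeros of `J_ν` can be enumerated in increasing order. -/
lemma exists_enum (hν : 0 < ν) : ∃ j : ℕ → ℝ, IsEnum ν j := by
  have hnext : ∀ x : ℝ, ∃ m, IsLeast (Z ν ∩ Ioi x) m := by
    intro x
    obtain ⟨M, hM, hxM⟩ := Z_unbounded hν x
    have hfin : (Z ν ∩ Iic M ∩ Ioi x).Finite := (Z_finite hν M).subset inter_subset_left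
    obtain ⟨m, hm, hmin⟩ := hfin.exists_minimal ⟨M, ⟨hM, Set.mem_Iic.2 (le_refl M)⟩, hxM⟩
    refine ⟨m, ⟨hm.1.1, hm.2⟩, fun y hy => ?_⟩
    rcases le_total m y with h | h
    · exact h
    · exact hmin ⟨⟨hy.1, h.trans hm.1.2⟩, hy.2⟩ h
  choose nxt hnxt using hnext
  set j : ℕ → ℝ := fun n => Nat.rec 0 (fun _ x => nxt x) n with hj
  have hj0 : j 0 = 0 := rfl
  have hjs : ∀ n, j (n + 1) = nxt (j n) := fun n => rfl
  have hmono : StrictMono j := strictMono_nat_of_lt_succ fun n => by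
    rw [hjs]; exact (hnxt (j n)).1.2
  have hmem : ∀ n, j (n + 1) ∈ Z ν := fun n => by rw [hjs]; exact (hnxt (j n)).1.1
  refine ⟨j, hj0, hmono, fun x hx => ⟨fun hJx => ?_, ?_⟩⟩
  · by_contra hcon
    push Not at hcon
    have hlt : ∀ n, j n < x := by
      intro n
      induction n with
      | zero => exact hx
      | succ n ih =>
        have h1 : j (n + 1) ≤ x := by rw [hjs]; exact (hnxt (j n)).2 ⟨⟨hx, hJx⟩, ih⟩
        exact lt_of_le_of_ne h1 (Ne.symm (hcon (n + 1) (by omega)))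
    have hinf : (Z ν ∩ Iic x).Infinite := by
      apply Set.infinite_of_injective_forall_mem (f := fun n => j (n + 1))
      · intro a b hab
        have : a + 1 = b + 1 := hmono.injective hab
        omega
      · intro n
        exact ⟨hmem n, (hlt (n + 1)).le⟩
    exact hinf (Z_finite hν x)
  · rintro ⟨n, hn, rfl⟩
    obtain ⟨m, rfl⟩ : ∃ m, n = m + 1 := ⟨n - 1, by omega⟩
    exact (hmem m).2

/-! ### The limit at the origin -/

lemma g_zero (ν : ℝ) : g ν 0 = 1 / Real.Gamma (ν + 1) := by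
  unfold g ser
  rw [tsum_eq_single 0]
  · simp [cf]
  · intro m hm; simp [hm]

/-- `Φ_ν(x) → 1/(ν+1)` as `x → 0+`. -/
lemma Phi_tendsto (hν : 0 < ν) : Tendsto (Phi ν) (𝓝[>] 0) (𝓝 (1 / (ν + 1))) := by
  have h4 : Tendsto (fun x : ℝ => x ^ 2 / 4) (𝓝[>] 0) (𝓝 0) := by
    have : ContinuousAt (fun x : ℝ => x ^ 2 / 4) 0 := by fun_prop
    have := this.tendsto
    simp only [ne_eq, OfNat.ofNat_ne_zero, not_false_eq_true, zero_pow, zero_div] at this
    exact this.mono_left nhdsWithin_le_nhds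
  have hg1 : Tendsto (fun x : ℝ => g ν (x ^ 2 / 4)) (𝓝[>] 0) (𝓝 (g ν 0)) :=
    ((g_hasDerivAt (by linarith : -1 < ν) 0).continuousAt).tendsto.comp h4
  have hg2 : Tendsto (fun x : ℝ => g (ν + 1) (x ^ 2 / 4)) (𝓝[>] 0) (𝓝 (g (ν + 1) 0)) :=
    ((g_hasDerivAt (by linarith : -1 < ν + 1) 0).continuousAt).tendsto.comp h4
  have hG : 0 < Real.Gamma (ν + 1) := Real.Gamma_pos_of_pos (by linarith)
  have hg0 : g ν 0 ≠ 0 := by rw [g_zero]; positivity
  have hq := hg2.div hg1 hg0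
  have hq0 : g (ν + 1) 0 / g ν 0 = 1 / (ν + 1) := by
    rw [g_zero, g_zero, Real.Gamma_add_one (s := ν + 1) (by linarith)]
    field_simp
  rw [hq0] at hq
  have hx : Tendsto (fun x : ℝ => x / 2) (𝓝[>] 0) (𝓝 0) := by
    have : ContinuousAt (fun x : ℝ => x / 2) 0 := by fun_prop
    have := this.tendsto
    simp only [zero_div] at this
    exact this.mono_left nhdsWithin_le_nhds
  have h := ((hq.const_mul ν).const_sub 1).add ((hx.pow 2).mul (hq.pow 2))
  have e : 1 - ν * (1 / (ν + 1)) + 0 ^ 2 * (1 / (ν + 1)) ^ 2 = 1 / (ν + 1) := by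
    have : ν + 1 ≠ 0 := by positivity
    field_simp
    ring
  rw [e] at h
  refine h.congr' ?_
  filter_upwards [Ioo_mem_nhdsGT (by norm_num : (0 : ℝ) < 1)] with x hx'
  have hx0 : 0 < x := hx'.1
  have hJp := J_pos hν.le hx0 (by linarith [hx'.2])
  have h2 : 0 < x / 2 := by positivity
  have hgp : g ν (x ^ 2 / 4) ≠ 0 := by
    intro h0
    rw [J_eq hx0, h0, mul_zero] at hJp
    exact lt_irrefl _ hJp
  have hpow : (x / 2) ^ ν ≠ 0 := (Real.rpow_pos_of_pos h2 ν).ne'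
  unfold Phi
  rw [Delta_eq hν hx0, J_eq hx0, J_eq hx0, Real.rpow_add h2, Real.rpow_one]
  simp only [Pi.div_apply]
  field_simp

/-- **Q1 is true.** Let `ν > 0`. The positive zeros of `J_ν` can be enumerated increasingly as
`j 1 < j 2 < ⋯` (put `j 0 = 0`), and for every such enumeration:
(a) for each `n ≥ 1` the derivative `Φ_ν'` vanishes at exactly one point `α n` of `(j n, j (n+1))`;
(b) the sequence `β 0 = 1/(ν+1) = lim_{x → 0+} Φ_ν(x)`, `β n = Φ_ν (α n)` for `n ≥ 1`, is strictly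
increasing. -/
theorem result (ν : ℝ) (hν : 0 < ν) :
    (∃ j : ℕ → ℝ, IsEnum ν j) ∧ Tendsto (Phi ν) (𝓝[>] 0) (𝓝 (1 / (ν + 1))) ∧
    ∀ j : ℕ → ℝ, IsEnum ν j → ∃ α : ℕ → ℝ,
      (∀ n : ℕ, 1 ≤ n → α n ∈ Ioo (j n) (j (n + 1)) ∧
        ∀ x ∈ Ioo (j n) (j (n + 1)), (deriv (Phi ν) x = 0 ↔ x = α n)) ∧
      StrictMono (fun n : ℕ => if n = 0 then 1 / (ν + 1) else Phi ν (α n)) := by
  refine ⟨exists_enum hν, Phi_tendsto hν, fun j hj => ?_⟩
  obtain ⟨hj0, hmono, hz⟩ := hj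
  have hjpos : ∀ n, 1 ≤ n → 0 < j n := fun n hn => by
    rw [← hj0]; exact hmono (by omega)
  have hJz : ∀ n, 1 ≤ n → J ν (j n) = 0 := fun n hn => (hz (j n) (hjpos n hn)).2 ⟨n, hn, rfl⟩
  have hne : ∀ n, 1 ≤ n → ∀ x ∈ Ioo (j n) (j (n + 1)), J ν x ≠ 0 := by
    intro n hn x hx h0
    obtain ⟨m, -, rfl⟩ := (hz x ((hjpos n hn).trans hx.1)).1 h0
    have h1 := hmono.lt_iff_lt.1 hx.1
    have h2 := hmono.lt_iff_lt.1 hx.2
    omega
  have hex : ∀ n, ∃ c, 1 ≤ n → c ∈ Ioo (j n) (j (n + 1)) ∧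
      ∀ x ∈ Ioo (j n) (j (n + 1)), (deriv (Phi ν) x = 0 ↔ x = c) := by
    intro n
    by_cases hn : 1 ≤ n
    · obtain ⟨c, hc1, hc2⟩ := exists_unique_crit hν (hjpos n hn) (hmono (Nat.lt_succ_self n))
        (hJz n hn) (hJz (n + 1) (by omega)) (hne n hn)
      exact ⟨c, fun _ => ⟨hc1, hc2⟩⟩
    · exact ⟨0, fun h => absurd h hn⟩
  choose α hα using hex
  refine ⟨α, hα, ?_⟩
  have hval : ∀ n, 1 ≤ n → 0 < Phi ν (α n) ∧ Phi ν (α n) < 1 ∧
      α n ^ 2 = ν ^ 2 / (1 - Phi ν (α n)) - (1 - Phi ν (α n)) / Phi ν (α n) ^ 2 := by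
    intro n hn
    obtain ⟨h1, h2⟩ := hα n hn
    have h3 : 3 / 2 < j n := Z_lower hν ⟨hjpos n hn, hJz n hn⟩
    exact crit_value hν (by linarith [h1.1]) (hne n hn _ h1) ((h2 _ h1).2 rfl)
  apply strictMono_nat_of_lt_succ
  intro n
  rcases Nat.eq_zero_or_pos n with rfl | hn
  · simp only [if_true, Nat.zero_add, one_ne_zero, if_false]
    obtain ⟨h1, h2, h3⟩ := hval 1 le_rfl
    have hα1 : 0 < α 1 := (hjpos 1 le_rfl).trans (hα 1 le_rfl).1.1
    refine value_lt hν le_rfl hα1 (by positivity) ?_ h1 h2 ?_ h3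
    · rw [div_lt_one (by linarith)]; linarith
    · have h4 : ν + 1 ≠ 0 := by positivity
      have h5 : 1 - 1 / (ν + 1) = ν / (ν + 1) := by field_simp; ring
      rw [h5]
      field_simp
      ring
  · rw [if_neg (by omega), if_neg (by omega)]
    obtain ⟨h1, h2, h3⟩ := hval n hn
    obtain ⟨h4, h5, h6⟩ := hval (n + 1) (by omega)
    have h7 := (hα n hn).1
    have h8 := (hα (n + 1) (by omega)).1
    exact value_lt hν ((hjpos n hn).trans h7.1).le (by linarith [h7.2, h8.1]) h1 h2 h4 h5 h3 h6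

end

end Pool.Agent.Results.MP_f30c32_an.TuranMinima
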